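import Pool.Agent.Helper54.S4.Stmts

/-! Exact values of the wires from order and inequalities. -/

set_option autoImplicit false

namespace Pool.Agent.Helper54.S4

open Finset Pool.Agent.Helper54.SP

theorem qs4_FFc {a b : ℕ → ℝ} (h : ∀ i, i < 6 → a i = b i) : FF a = FF b := by
  unfold FF
  rw [h 0 (by norm_num), h 1 (by norm_num), h 2 (by norm_num), h 3 (by norm_num),
    h 4 (by norm_num), h 5 (by norm_num)]

theorem qs4_FGc {a b : ℕ → ℝ} (h : ∀ i, i < 6 → a i = b i) : FG a = FG b := by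
  unfold FG
  rw [h 0 (by norm_num), h 1 (by norm_num), h 2 (by norm_num), h 3 (by norm_num),
    h 4 (by norm_num), h 5 (by norm_num)]

theorem qs4_ou (j : ℕ) : ou j < 6 := by
  unfold ou
  split_ifs <;> norm_num

theorem qs4_lv (hPT : ST_PT4) (Γ : List Gt) (nw j i : ℕ) (hi : i < 6) :
    lv Γ nw (pt j i) = 1 + wi Γ nw j i * (4 * Γ.length) +
      (if pu j i then 2 * Γ.length + rn Γ j else 2 * Γ.length - 1 - rn Γ j) := by
  obtain ⟨h1, h2, _, h4⟩ := hPT.1 j i hi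
  unfold lv
  rw [if_neg (by omega), if_neg (by omega), h1, h2, Nat.add_sub_cancel]

theorem qs4_lt {Γ : List Gt} {j i : ℕ} (hj : j < 4 * Γ.length) (hi : i < 6) :
    2 ≤ pt j i ∧ pt j i < N4 Γ := by
  unfold pt N4
  omega

/-- the invariant -/
def Qs4 (Γ : List Gt) (nw : ℕ) (y : ℕ → ℝ) (R : ℕ) (V : ℕ → ℝ) : Prop :=
  (∀ j i, j < 4 * Γ.length → i < 6 →
    (∀ j', j' < 4 * Γ.length → R ≤ rn Γ j' → wi Γ nw j i ≠ wi Γ nw j' (ou j')) →
    (pu j i = false → y (pt j i) < V (wi Γ nw j i)) ∧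
    (pu j i = true → V (wi Γ nw j i) < y (pt j i))) ∧
  ∀ j, j < 4 * Γ.length → rn Γ j < R →
    FF (fun i => V (wi Γ nw j i)) = FG (fun i => V (wi Γ nw j i))

/-- orders of the points -/
def Qs4O (Γ : List Gt) (nw : ℕ) (y : ℕ → ℝ) : Prop :=
  (∀ j i j' i', j < 4 * Γ.length → i < 6 → j' < 4 * Γ.length → i' < 6 →
    wi Γ nw j i < wi Γ nw j' i' → y (pt j i) < y (pt j' i')) ∧
  (∀ j i j' i', j < 4 * Γ.length → i < 6 → j' < 4 * Γ.length → i' < 6 →
    wi Γ nw j i = wi Γ nw j' i' → pu j i = false → pu j' i' = true → y (pt j i) < y (pt j' i')) ∧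
  (∀ j i j' i', j < 4 * Γ.length → i < 6 → j' < 4 * Γ.length → i' < 6 →
    wi Γ nw j i = wi Γ nw j' i' → pu j i = true → pu j' i' = true → rn Γ j < rn Γ j' →
      y (pt j i) < y (pt j' i')) ∧
  (∀ j i j' i', j < 4 * Γ.length → i < 6 → j' < 4 * Γ.length → i' < 6 →
    wi Γ nw j i = wi Γ nw j' i' → pu j i = false → pu j' i' = false → rn Γ j < rn Γ j' →
      y (pt j' i') < y (pt j i))

theorem qs4_O (hWI : ST_WI4) (hLV : ST_LV4) (hPT : ST_PT4) (Γ : List Gt) (nw : ℕ) (y : ℕ → ℝ)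
    (hW : WF Γ nw)
    (hy : ∀ p q, 2 ≤ p → 2 ≤ q → p < N4 Γ → q < N4 Γ → lv Γ nw p < lv Γ nw q → y p < y q) :
    Qs4O Γ nw y := by
  have hr : ∀ j, j < 4 * Γ.length → rn Γ j < 2 * Γ.length := fun j hj => (hWI Γ nw hW j hj).2.2.1
  refine ⟨?_, ?_, ?_, ?_⟩
  · intro j i j' i' hj hi hj' hi' h
    obtain ⟨a1, a2⟩ := qs4_lt hj hi
    obtain ⟨b1, b2⟩ := qs4_lt hj' hi'
    refine hy _ _ a1 b1 a2 b2 ?_
    obtain ⟨c1, c2, _, c4⟩ := hPT.1 j i hi
    obtain ⟨d1, d2, _, d4⟩ := hPT.1 j' i' hi'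
    refine (hLV Γ nw hW).2.2.2.2.2 _ _ c4 d4 a2 b2 ?_
    rw [c1, c2, d1, d2, Nat.add_sub_cancel, Nat.add_sub_cancel]
    exact h
  · intro j i j' i' hj hi hj' hi' h h1 h2
    obtain ⟨a1, a2⟩ := qs4_lt hj hi
    obtain ⟨b1, b2⟩ := qs4_lt hj' hi'
    refine hy _ _ a1 b1 a2 b2 ?_
    have hr1 := hr j hj
    rw [qs4_lv hPT Γ nw j i hi, qs4_lv hPT Γ nw j' i' hi', h, h1, h2, if_pos rfl,
      if_neg Bool.false_ne_true]
    omega
  · intro j i j' i' hj hi hj' hi' h h1 h2 h3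
    obtain ⟨a1, a2⟩ := qs4_lt hj hi
    obtain ⟨b1, b2⟩ := qs4_lt hj' hi'
    refine hy _ _ a1 b1 a2 b2 ?_
    rw [qs4_lv hPT Γ nw j i hi, qs4_lv hPT Γ nw j' i' hi', h, h1, h2, if_pos rfl, if_pos rfl]
    omega
  · intro j i j' i' hj hi hj' hi' h h1 h2 h3
    obtain ⟨a1, a2⟩ := qs4_lt hj hi
    obtain ⟨b1, b2⟩ := qs4_lt hj' hi'
    refine hy _ _ b1 a1 b2 a2 ?_
    have hr1 := hr j' hj'
    rw [qs4_lv hPT Γ nw j i hi, qs4_lv hPT Γ nw j' i' hi', h, h1, h2, if_neg Bool.false_ne_true,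
      if_neg Bool.false_ne_true]
    omega

theorem qs4_pair (hWI : ST_WI4) (Γ : List Gt) (nw : ℕ) (hW : WF Γ nw) (j i : ℕ)
    (hj : j < 4 * Γ.length) (b : Bool) :
    ∃ j', j' < 4 * Γ.length ∧ j / 2 = j' / 2 ∧ pu j' i = b := by
  have h0 : 2 * (j / 2) < 4 * Γ.length := by omega
  have h1 : 2 * (j / 2) + 1 < 4 * Γ.length := by omega
  have h2 := ((hWI Γ nw hW _ h0).2.2.2.2.2.2.2.1 (2 * (j / 2) + 1) (by omega)).2.2.2 (by omega) i
  by_cases h : pu (2 * (j / 2)) i = b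
  · exact ⟨_, h0, by omega, h⟩
  · refine ⟨_, h1, by omega, ?_⟩
    revert h h2
    cases pu (2 * (j / 2)) i <;> cases pu (2 * (j / 2) + 1) i <;> cases b <;> simp

theorem qs4_base (Γ : List Gt) (nw : ℕ) (y : ℕ → ℝ) (hO : Qs4O Γ nw y) :
    ∃ V : ℕ → ℝ, Qs4 Γ nw y 0 V := by
  classical
  have key : ∀ z : ℕ, ∃ c : ℝ, ∀ j i, j < 4 * Γ.length → i < 6 → wi Γ nw j i = z →
      (pu j i = false → y (pt j i) < c) ∧ (pu j i = true → c < y (pt j i)) := by
    intro z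
    have h := Order.exists_between_finsets
      ((((range (4 * Γ.length)) ×ˢ (range 6)).filter
        (fun p => wi Γ nw p.1 p.2 = z ∧ pu p.1 p.2 = false)).image (fun p => y (pt p.1 p.2)))
      ((((range (4 * Γ.length)) ×ˢ (range 6)).filter
        (fun p => wi Γ nw p.1 p.2 = z ∧ pu p.1 p.2 = true)).image (fun p => y (pt p.1 p.2)))
      (by
        intro x hx x' hx'
        rw [mem_image] at hx hx'
        obtain ⟨p, hp, rfl⟩ := hx
        obtain ⟨p', hp', rfl⟩ := hx'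
        rw [mem_filter, mem_product, mem_range, mem_range] at hp hp'
        exact hO.2.1 _ _ _ _ hp.1.1 hp.1.2 hp'.1.1 hp'.1.2 (hp.2.1.trans hp'.2.1.symm) hp.2.2
          hp'.2.2)
    obtain ⟨c, h1, h2⟩ := h
    refine ⟨c, fun j i hj hi hz => ⟨fun hp => h1 _ ?_, fun hp => h2 _ ?_⟩⟩
    · rw [mem_image]
      refine ⟨(j, i), ?_, rfl⟩
      rw [mem_filter, mem_product, mem_range, mem_range]
      exact ⟨⟨hj, hi⟩, hz, hp⟩
    · rw [mem_image]
      refine ⟨(j, i), ?_, rfl⟩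
      rw [mem_filter, mem_product, mem_range, mem_range]
      exact ⟨⟨hj, hi⟩, hz, hp⟩
  choose V hV using key
  refine ⟨V, fun j i hj hi _ => hV _ j i hj hi rfl, fun j hj h => absurd h (Nat.not_lt_zero _)⟩

theorem qs4_step (hMO : ST_MO4) (hRT : ST_RT4) (hWI : ST_WI4) (Γ : List Gt) (nw : ℕ)
    (y : ℕ → ℝ) (hW : WF Γ nw) (hO : Qs4O Γ nw y)
    (hg : ∀ j, j < 4 * Γ.length →
      (j % 2 = 1 → FF (fun i => y (pt j i)) < FG (fun i => y (pt j i))) ∧
      (j % 2 = 0 → FG (fun i => y (pt j i)) < FF (fun i => y (pt j i)))) (R : ℕ) (V : ℕ → ℝ)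
    (hV : Qs4 Γ nw y R V) : ∃ V' : ℕ → ℝ, Qs4 Γ nw y (R + 1) V' := by
  classical
  by_cases hex : ∃ j, j < 4 * Γ.length ∧ rn Γ j = R
  swap
  · refine ⟨V, fun j i hj hi h => hV.1 j i hj hi (fun j' hj' hr => ?_), fun j hj hr => ?_⟩
    · exact h j' hj' (lt_of_le_of_ne hr (fun e => hex ⟨j', hj', e.symm⟩))
    · exact hV.2 j hj (lt_of_le_of_ne (Nat.lt_succ_iff.1 hr) (fun e => hex ⟨j, hj, e⟩))
  obtain ⟨j, hj, hjR⟩ := hex
  obtain ⟨hwm, -, hrk, -, -, -, huq, hpar, hlast⟩ := hWI Γ nw hW j hj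
  -- the two half gates
  have hj0 : 2 * (j / 2) < 4 * Γ.length := by omega
  have hj1 : 2 * (j / 2) + 1 < 4 * Γ.length := by omega
  obtain ⟨j0, e0⟩ : ∃ j0, j0 = 2 * (j / 2) := ⟨_, rfl⟩
  obtain ⟨j1, e1⟩ : ∃ j1, j1 = 2 * (j / 2) + 1 := ⟨_, rfl⟩
  rw [← e0] at hj0
  rw [← e1] at hj1
  have ho6 := qs4_ou j
  -- wires of a half gate with the same gate
  have hin : ∀ j', j' < 4 * Γ.length → j / 2 = j' / 2 → ∀ i, i < 6 → i ≠ ou j →
      (pu j' i = false → y (pt j' i) < V (wi Γ nw j i)) ∧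
      (pu j' i = true → V (wi Γ nw j i) < y (pt j' i)) := by
    intro j' hj' hjj i hi hio
    obtain ⟨p1, p2, p3, p4⟩ := hpar j' hjj
    rw [p1 i]
    refine hV.1 j' i hj' hi (fun j'' hj'' hr hw => ?_)
    rcases (hWI Γ nw hW j'' hj'').2.2.2.2.2.2.2.2 j' i hj' hi hw with ⟨h1, h2⟩ | ⟨h1, h2⟩
    · have h3 := ((hWI Γ nw hW j'' hj'').2.2.2.2.2.2.2.1 j' h1).2.2.1
      exact hio (by rw [h2, h3, p3])
    · rw [← p2, hjR] at h1
      omega
  -- neighbouring values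
  have hlow : ∀ j', j' < 4 * Γ.length → j / 2 = j' / 2 → ∀ i i', i < 6 → i' < 6 → i < i' →
      y (pt j' i) < y (pt j' i') := by
    intro j' hj' hjj i i' hi hi' hii
    obtain ⟨p1, p2, p3, p4⟩ := hpar j' hjj
    refine hO.1 j' i j' i' hj' hi hj' hi' ?_
    rw [← p1, ← p1]
    clear * - hwm hi hi' hii
    induction i' with
    | zero => omega
    | succ n ih =>
      rcases Nat.lt_or_ge i n with h | h
      · exact lt_trans (ih (by omega) h) (hwm n (by omega))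
      · have : i = n := by omega
        rw [this]
        exact hwm n (by omega)
  have hwlt : ∀ i, i < 5 → wi Γ nw j i < wi Γ nw j (i + 1) := hwm
  -- comparison of values with points of neighbouring wires
  have hyV : ∀ j', j' < 4 * Γ.length → j / 2 = j' / 2 → ∀ i, i < 5 → i + 1 ≠ ou j →
      y (pt j' i) < V (wi Γ nw j (i + 1)) := by
    intro j' hj' hjj i hi hio
    obtain ⟨jl, hjl, hjl2, hjlp⟩ := qs4_pair hWI Γ nw hW j (i + 1) hj false
    refine lt_trans (hO.1 j' i jl (i + 1) hj' (by omega) hjl (by omega) ?_)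
      ((hin jl hjl hjl2 (i + 1) (by omega) hio).1 hjlp)
    rw [← (hpar j' hjj).1, ← (hpar jl hjl2).1]
    exact hwm i hi
  have hVy : ∀ j', j' < 4 * Γ.length → j / 2 = j' / 2 → ∀ i, i < 5 → i ≠ ou j →
      V (wi Γ nw j i) < y (pt j' (i + 1)) := by
    intro j' hj' hjj i hi hio
    obtain ⟨jl, hjl, hjl2, hjlp⟩ := qs4_pair hWI Γ nw hW j i hj true
    refine lt_trans ((hin jl hjl hjl2 i (by omega) hio).2 hjlp)
      (hO.1 jl i j' (i + 1) hjl (by omega) hj' (by omega) ?_)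
    rw [← (hpar j' hjj).1, ← (hpar jl hjl2).1]
    exact hwm i hi
  have hVV : ∀ i, i < 5 → i ≠ ou j → i + 1 ≠ ou j → V (wi Γ nw j i) < V (wi Γ nw j (i + 1)) := by
    intro i hi hio hio'
    obtain ⟨jl, hjl, hjl2, hjlp⟩ := qs4_pair hWI Γ nw hW j i hj true
    exact lt_trans ((hin jl hjl hjl2 i (by omega) hio).2 hjlp) (hyV jl hjl hjl2 i hi hio')
  -- the four conditions of the monotonicity lemma
  have hmo : ∀ j', j' < 4 * Γ.length → j / 2 = j' / 2 → ∀ i, i < 5 →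
      y (pt j' i) < y (pt j' (i + 1)) ∧
      y (pt j' i) < Function.update (fun i => V (wi Γ nw j i)) (ou j) (y (pt j' (ou j))) (i + 1) ∧
      Function.update (fun i => V (wi Γ nw j i)) (ou j) (y (pt j' (ou j))) i < y (pt j' (i + 1)) ∧
      Function.update (fun i => V (wi Γ nw j i)) (ou j) (y (pt j' (ou j))) i <
        Function.update (fun i => V (wi Γ nw j i)) (ou j) (y (pt j' (ou j))) (i + 1) := by
    intro j' hj' hjj i hi
    have hyy := hlow j' hj' hjj i (i + 1) (by omega) (by omega) (by omega)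
    by_cases h1 : i = ou j
    · have h2 : i + 1 ≠ ou j := by omega
      have h3 := hyV j' hj' hjj i hi h2
      rw [Function.update_of_ne h2, ← h1, Function.update_self]
      exact ⟨hyy, h3, hyy, h3⟩
    · by_cases h2 : i + 1 = ou j
      · have h3 := hVy j' hj' hjj i hi h1
        rw [Function.update_of_ne h1, ← h2, Function.update_self]
        exact ⟨hyy, hyy, h3, h3⟩
      · rw [Function.update_of_ne h1, Function.update_of_ne h2]
        exact ⟨hyy, hyV j' hj' hjj i hi h2, hVy j' hj' hjj i hi h1, hVV i hi h1 h2⟩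
  have hjj0 : j / 2 = j0 / 2 := by omega
  have hjj1 : j / 2 = j1 / 2 := by omega
  have hm0 : j0 % 2 = 0 := by omega
  have hm1 : j1 % 2 = 1 := by omega
  have hou0 : ou j = ou j0 := (hpar j0 hjj0).2.2.1
  have hou1 : ou j = ou j1 := (hpar j1 hjj1).2.2.1
  have hpo0 : pu j0 (ou j) = false := by
    unfold pu
    rw [if_pos hou0, hm0]
    rfl
  have hpo1 : pu j1 (ou j) = true := by
    unfold pu
    rw [if_pos hou1, hm1]
    rfl
  have hD : y (pt j0 (ou j)) < y (pt j1 (ou j)) := by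
    refine hO.2.1 _ _ _ _ hj0 ho6 hj1 ho6 ?_ hpo0 hpo1
    rw [← (hpar j0 hjj0).1, ← (hpar j1 hjj1).1]
  have hUp : FF (Function.update (fun i => V (wi Γ nw j i)) (ou j) (y (pt j1 (ou j)))) <
      FG (Function.update (fun i => V (wi Γ nw j i)) (ou j) (y (pt j1 (ou j)))) := by
    refine (hMO (fun i => y (pt j1 i)) _ (hmo j1 hj1 hjj1)).1 ?_ ((hg j1 hj1).1 hm1)
    intro i hi
    by_cases h1 : i = ou j
    · rw [← h1, Function.update_self]
      exact ⟨fun _ => le_refl _, fun _ => le_refl _⟩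
    · rw [Function.update_of_ne h1]
      obtain ⟨q1, q2⟩ := hin j1 hj1 hjj1 i hi h1
      refine ⟨fun h => (q1 ?_).le, fun h => (q2 ?_).le⟩
      · unfold pu
        rw [← hou1, if_neg h1]
        exact decide_eq_false (by omega)
      · unfold pu
        rw [← hou1, if_neg h1]
        exact decide_eq_true (by omega)
  have hDn : FG (Function.update (fun i => V (wi Γ nw j i)) (ou j) (y (pt j0 (ou j)))) <
      FF (Function.update (fun i => V (wi Γ nw j i)) (ou j) (y (pt j0 (ou j)))) := by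
    refine (hMO (fun i => y (pt j0 i)) _ (hmo j0 hj0 hjj0)).2 ?_ ((hg j0 hj0).2 hm0)
    intro i hi
    by_cases h1 : i = ou j
    · rw [← h1, Function.update_self]
      exact ⟨fun _ => le_refl _, fun _ => le_refl _⟩
    · rw [Function.update_of_ne h1]
      obtain ⟨q1, q2⟩ := hin j0 hj0 hjj0 i hi h1
      refine ⟨fun h => (q2 ?_).le, fun h => (q1 ?_).le⟩
      · unfold pu
        rw [← hou0, if_neg h1]
        exact decide_eq_true (by omega)
      · unfold pu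
        rw [← hou0, if_neg h1]
        exact decide_eq_false (by omega)
  obtain ⟨s, hs1, hs2, hs3⟩ := hRT _ _ _ _ hD hDn hUp
  obtain ⟨V', hV'⟩ : ∃ V' : ℕ → ℝ, V' = Function.update V (wi Γ nw j (ou j)) s := ⟨_, rfl⟩
  have hVo : V' (wi Γ nw j (ou j)) = s := by rw [hV', Function.update_self]
  have hVn : ∀ z, z ≠ wi Γ nw j (ou j) → V' z = V z := by
    intro z hz
    rw [hV', Function.update_of_ne hz]
  have hwinj : ∀ i, i < 6 → i ≠ ou j → wi Γ nw j i ≠ wi Γ nw j (ou j) := by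
    intro i hi hio he
    rcases hlast j i hj hi he with ⟨_, h2⟩ | ⟨h1, _⟩
    · exact hio h2
    · exact absurd h1 (lt_irrefl _)
  have hroot : FF (fun i => V' (wi Γ nw j i)) = FG (fun i => V' (wi Γ nw j i)) := by
    have hc : ∀ i, i < 6 → V' (wi Γ nw j i) =
        Function.update (fun i => V (wi Γ nw j i)) (ou j) s i := by
      intro i hi
      by_cases h1 : i = ou j
      · rw [h1, hVo, Function.update_self]
      · rw [Function.update_of_ne h1, hVn _ (hwinj i hi h1)]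
    rw [qs4_FFc (b := Function.update (fun i => V (wi Γ nw j i)) (ou j) s) hc,
      qs4_FGc (b := Function.update (fun i => V (wi Γ nw j i)) (ou j) s) hc]
    exact hs3
  refine ⟨V', ?_, ?_⟩
  · intro j' i hj' hi hno
    by_cases hz : wi Γ nw j' i = wi Γ nw j (ou j)
    · rw [hz, hVo]
      rcases hlast j' i hj' hi hz with ⟨h1, h2⟩ | ⟨h1, h2⟩
      · have h3 : j' = j0 ∨ j' = j1 := by omega
        rcases h3 with h3 | h3
        · rw [h3, h2, hpo0]
          exact ⟨fun _ => hs1, fun h => absurd h Bool.false_ne_true⟩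
        · rw [h3, h2, hpo1]
          exact ⟨fun h => absurd h.symm Bool.false_ne_true, fun _ => hs2⟩
      · refine ⟨fun h3 => lt_trans ?_ hs1, fun h3 => lt_trans hs2 ?_⟩
        · refine hO.2.2.2 j0 (ou j) j' i hj0 ho6 hj' hi ?_ hpo0 h3 ?_
          · rw [hz, (hpar j0 hjj0).1]
          · rw [← (hpar j0 hjj0).2.1]
            exact h1
        · refine hO.2.2.1 j1 (ou j) j' i hj1 ho6 hj' hi ?_ hpo1 h3 ?_
          · rw [hz, (hpar j1 hjj1).1]
          · rw [← (hpar j1 hjj1).2.1]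
            exact h1
    · rw [hVn _ hz]
      refine hV.1 j' i hj' hi (fun j'' hj'' hr hw => ?_)
      rcases Nat.lt_or_ge R (rn Γ j'') with h1 | h1
      · exact hno j'' hj'' h1 hw
      · have h2 : rn Γ j = rn Γ j'' := by omega
        have h3 := huq j'' hj'' h2
        obtain ⟨p1, p2, p3, p4⟩ := hpar j'' h3
        exact hz (by rw [hw, ← p3, ← p1])
  · intro j' hj' hr
    rcases Nat.lt_or_ge (rn Γ j') R with h1 | h1
    · have hc : ∀ i, i < 6 → V' (wi Γ nw j' i) = V (wi Γ nw j' i) := by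
        intro i hi
        refine hVn _ (fun he => ?_)
        rcases hlast j' i hj' hi he with ⟨h2, _⟩ | ⟨h2, _⟩
        · have := (hpar j' h2).2.1
          omega
        · omega
      rw [qs4_FFc (b := fun i => V (wi Γ nw j' i)) hc,
        qs4_FGc (b := fun i => V (wi Γ nw j' i)) hc]
      exact hV.2 j' hj' h1
    · have h2 : rn Γ j = rn Γ j' := by omega
      obtain ⟨p1, p2, p3, p4⟩ := hpar j' (huq j' hj' h2)
      have hc : (fun i => V' (wi Γ nw j' i)) = fun i => V' (wi Γ nw j i) := by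
        funext i
        rw [p1 i]
      rw [hc]
      exact hroot

theorem st_QS4 (hMO : ST_MO4) (hRT : ST_RT4) (hWI : ST_WI4) (hLV : ST_LV4) (hPT : ST_PT4) :
    ST_QS4 := by
  intro Γ nw y hW hy hg
  have hO := qs4_O hWI hLV hPT Γ nw y hW hy
  have hall : ∀ R, ∃ V : ℕ → ℝ, Qs4 Γ nw y R V := by
    intro R
    induction R with
    | zero => exact qs4_base Γ nw y hO
    | succ n ih =>
      obtain ⟨V, hV⟩ := ih
      exact qs4_step hMO hRT hWI Γ nw y hW hO hg n V hV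
  obtain ⟨V, hV⟩ := hall (2 * Γ.length)
  have hr : ∀ j, j < 4 * Γ.length → rn Γ j < 2 * Γ.length := fun j hj => (hWI Γ nw hW j hj).2.2.1
  refine ⟨V, ?_, fun j hj => hV.2 j hj (hr j hj)⟩
  rintro z z' ⟨j, hj, i, hi, rfl⟩ ⟨j', hj', i', hi', rfl⟩ hz
  obtain ⟨a, ha, ha2, hap⟩ := qs4_pair hWI Γ nw hW j i hj true
  obtain ⟨b, hb, hb2, hbp⟩ := qs4_pair hWI Γ nw hW j' i' hj' false
  have ea := ((hWI Γ nw hW j hj).2.2.2.2.2.2.2.1 a ha2).1 i
  have eb := ((hWI Γ nw hW j' hj').2.2.2.2.2.2.2.1 b hb2).1 i'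
  rw [ea, eb] at hz ⊢
  have h1 := (hV.1 a i ha hi (fun j'' hj'' h _ => absurd (hr j'' hj'') (not_lt.2 h))).2 hap
  have h2 := (hV.1 b i' hb hi' (fun j'' hj'' h _ => absurd (hr j'' hj'') (not_lt.2 h))).1 hbp
  exact lt_trans h1 (lt_trans (hO.1 a i b i' ha hi hb hi' hz) h2)

end Pool.Agent.Helper54.S4
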